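import Pool.Agent.helper80.SV.Spec

/-!
# Project sv:, UG: uniform configurations are generic
-/

set_option autoImplicit false
set_option linter.unusedSectionVars false

namespace Pool.Agent.SV

open MvPolynomial Module

section

variable {E P J : Type} [AddCommGroup E] [Module ℂ E] [AddCommGroup P] [Module ℂ P]

/-- all the conditions of a subconfiguration as one linear map -/
def UG_B (Φ : Bool → P → E →ₗ[ℂ] (J → ℂ)) {n a b : ℕ} (s : Fin a ↪ Fin n) (t : Fin b ↪ Fin n)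
    (Z : (Fin n → P) × (Fin n → P)) : E →ₗ[ℂ] ((Fin a ⊕ Fin b) × J → ℂ) where
  toFun v q := Sum.elim (fun i => Φ true (Z.1 (s i)) v q.2) (fun i => Φ false (Z.2 (t i)) v q.2) q.1
  map_add' v w := by
    funext q
    rcases q with ⟨i | i, j⟩ <;> simp
  map_smul' c v := by
    funext q
    rcases q with ⟨i | i, j⟩ <;> simp

theorem UG_ker (Φ : Bool → P → E →ₗ[ℂ] (J → ℂ)) {n a b : ℕ} (s : Fin a ↪ Fin n)
    (t : Fin b ↪ Fin n) (Z : (Fin n → P) × (Fin n → P)) :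
    LinearMap.ker (UG_B Φ s t Z) = Ker Φ (Z.1 ∘ s) (Z.2 ∘ t) := by
  ext v
  rw [LinearMap.mem_ker, mem_Ker]
  constructor
  · intro h
    refine ⟨fun i => funext fun j => ?_, fun i => funext fun j => ?_⟩
    · exact congrFun h (Sum.inl i, j)
    · exact congrFun h (Sum.inr i, j)
  · rintro ⟨h1, h2⟩
    funext q
    rcases q with ⟨i | i, j⟩
    · exact congrFun (h1 i) j
    · exact congrFun (h2 i) j

end

theorem UG (hGAL : GAL_stmt) (hGKR : GKR_stmt) : UG_stmt := by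
  intro E P J _ _ _ _ _ _ Φ hΦ n
  have h1 : ∀ q : (Σ a : Fin (n + 1), Σ b : Fin (n + 1),
      (Fin (a : ℕ) ↪ Fin n) × (Fin (b : ℕ) ↪ Fin n)),
      Gen (fun Z : (Fin n → P) × (Fin n → P) =>
        finrank ℂ (Ker Φ (Z.1 ∘ q.2.2.1) (Z.2 ∘ q.2.2.2)) ≤ dmin Φ q.1 q.2.1) := by
    rintro ⟨a, b, s, t⟩
    have h2 := hGKR (fun Z => UG_B Φ s t Z) (fun Z₀ Z₁ v q => by
      rcases q with ⟨i | i, j⟩
      · exact hΦ true (Z₀.1 (s i)) (Z₁.1 (s i)) v j
      · exact hΦ false (Z₀.2 (t i)) (Z₁.2 (t i)) v j) (dmin Φ a b) (by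
      obtain ⟨x, y, hxy⟩ := exists_dmin Φ (a : ℕ) (b : ℕ)
      refine ⟨(Function.extend s x 0, Function.extend t y 0), ?_⟩
      rw [UG_ker]
      change finrank ℂ (Ker Φ (Function.extend s x 0 ∘ s) (Function.extend t y 0 ∘ t)) ≤ _
      rw [Function.extend_comp s.injective, Function.extend_comp t.injective, hxy])
    have h4 : (fun Z => finrank ℂ (LinearMap.ker (UG_B Φ s t Z)) ≤ dmin Φ a b) =
        fun Z : (Fin n → P) × (Fin n → P) =>
          finrank ℂ (Ker Φ (Z.1 ∘ s) (Z.2 ∘ t)) ≤ dmin Φ a b := by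
      funext Z
      rw [UG_ker]
    rw [h4] at h2
    exact h2
  have h2 := hGAL _ h1
  have h3 : (fun Z : (Fin n → P) × (Fin n → P) => Uniform Φ n Z.1 Z.2) = fun Z =>
      ∀ q : (Σ a : Fin (n + 1), Σ b : Fin (n + 1),
        (Fin (a : ℕ) ↪ Fin n) × (Fin (b : ℕ) ↪ Fin n)),
        finrank ℂ (Ker Φ (Z.1 ∘ q.2.2.1) (Z.2 ∘ q.2.2.2)) ≤ dmin Φ q.1 q.2.1 := by
    funext Z
    refine propext ⟨fun h q => (h _ _ _ _).le, fun h a b s t => ?_⟩
    have ha : a ≤ n := by simpa using Fintype.card_le_of_embedding s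
    have hb : b ≤ n := by simpa using Fintype.card_le_of_embedding t
    exact le_antisymm (h ⟨⟨a, by omega⟩, ⟨b, by omega⟩, s, t⟩) (dmin_le Φ _ _)
  rw [h3]
  exact h2

end Pool.Agent.SV
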